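import Pool.Agent.V1173.KA.Loc

/-!
Leading coefficients of polynomials over the field with `l` elements, and the polynomial form of Kida's
formula for Euler products.
-/

set_option autoImplicit false
set_option linter.all false
set_option maxHeartbeats 4000000

open FF Module

namespace Pool.Agent.V1194.LT

open Pool.Agent.W343.BSD
open Polynomial

section lead

variable {F : Type} [Field F]

/-- The leading coefficient of `A` at `x`: the value at `x` of `A / (1 - X / x) ^ m`, with the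
multiplicity `m` of the zero `x` of `A`. -/
noncomputable def ld (x : F) (A : F[X]) : F :=
  (-x) ^ A.rootMultiplicity x * (A /ₘ (X - C x) ^ A.rootMultiplicity x).eval x

theorem lin_eq {x : F} (hx : x ≠ 0) : (1 - C x⁻¹ * X : F[X]) = C (-x⁻¹) * (X - C x) := by
  rw [mul_sub, ← C_mul, neg_mul, inv_mul_cancel₀ hx, C_neg, C_neg, C_1]
  ring

theorem lin_ne {x : F} : (1 - C x⁻¹ * X : F[X]) ≠ 0 := by
  intro h
  have h1 := congrArg (Polynomial.eval 0) h
  simp at h1

theorem rm_of_eq {x : F} (hx : x ≠ 0) {A G : F[X]} {m : ℕ} (hA : A = (1 - C x⁻¹ * X) ^ m * G)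
    (hG : G.eval x ≠ 0) : A.rootMultiplicity x = m := by
  have hG0 : G ≠ 0 := by
    rintro rfl
    exact hG (by simp)
  have h1 := rm_linear (q := x⁻¹) (inv_ne_zero hx)
  rw [inv_inv] at h1
  rw [hA, rm_mul x (pow_ne_zero _ lin_ne) hG0, rm_pow x lin_ne, h1, mul_one,
    Polynomial.rootMultiplicity_eq_zero hG, add_zero]

theorem ld_of_eq {x : F} (hx : x ≠ 0) {A G : F[X]} {m : ℕ} (hA : A = (1 - C x⁻¹ * X) ^ m * G)
    (hG : G.eval x ≠ 0) : ld x A = G.eval x := by
  have hm := rm_of_eq hx hA hG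
  unfold ld
  rw [hm]
  have h1 : A = (X - C x) ^ m * (C ((-x⁻¹) ^ m) * G) := by
    rw [hA, lin_eq hx, mul_pow, C_pow]
    ring
  have h2 : A /ₘ (X - C x) ^ m = C ((-x⁻¹) ^ m) * G := by
    conv_lhs => rw [h1]
    exact Polynomial.mul_divByMonic_cancel_left _ ((monic_X_sub_C x).pow m)
  rw [h2, eval_mul, eval_C, ← mul_assoc, ← mul_pow]
  have h3 : -x * -x⁻¹ = 1 := by
    rw [neg_mul_neg, mul_inv_cancel₀ hx]
  rw [h3, one_pow, one_mul]

theorem exists_ld {x : F} (hx : x ≠ 0) {A : F[X]} (hA : A ≠ 0) : ∃ G : F[X],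
    A = (1 - C x⁻¹ * X) ^ A.rootMultiplicity x * G ∧ G.eval x = ld x A ∧ ld x A ≠ 0 := by
  set m := A.rootMultiplicity x with hm
  have h1 := Polynomial.pow_mul_divByMonic_rootMultiplicity_eq A x
  rw [← hm] at h1
  have h2 : (A /ₘ (X - C x) ^ m).eval x ≠ 0 :=
    Polynomial.eval_divByMonic_pow_rootMultiplicity_ne_zero x hA
  refine ⟨C ((-x) ^ m) * (A /ₘ (X - C x) ^ m), ?_, ?_, ?_⟩
  · conv_lhs => rw [← h1]
    rw [lin_eq hx, mul_pow, ← C_pow]
    have h3 : C ((-x⁻¹) ^ m) * C ((-x) ^ m) = (1 : F[X]) := by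
      rw [← C_mul, ← mul_pow, neg_mul_neg, inv_mul_cancel₀ hx, one_pow, C_1]
    linear_combination (-((X - C x) ^ m * (A /ₘ (X - C x) ^ m))) * h3
  · rw [eval_mul, eval_C]
    rfl
  · unfold ld
    rw [← hm]
    exact mul_ne_zero (pow_ne_zero _ (neg_ne_zero.2 hx)) h2

theorem ld_ne {x : F} (hx : x ≠ 0) {A : F[X]} (hA : A ≠ 0) : ld x A ≠ 0 := by
  obtain ⟨G, -, -, h⟩ := exists_ld hx hA
  exact h

theorem ld_mul {x : F} (hx : x ≠ 0) {A B : F[X]} (hA : A ≠ 0) (hB : B ≠ 0) :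
    ld x (A * B) = ld x A * ld x B := by
  obtain ⟨G, g1, g2, g3⟩ := exists_ld hx hA
  obtain ⟨H, h1, h2, h3⟩ := exists_ld hx hB
  have h4 : A * B = (1 - C x⁻¹ * X) ^ (A.rootMultiplicity x + B.rootMultiplicity x) * (G * H) := by
    conv_lhs => rw [g1, h1]
    rw [pow_add]
    ring
  rw [ld_of_eq hx h4 (by rw [eval_mul, g2, h2]; exact mul_ne_zero g3 h3), eval_mul, g2, h2]

theorem ld_one {x : F} (hx : x ≠ 0) : ld x (1 : F[X]) = 1 := by
  have h := ld_of_eq (A := (1 : F[X])) (G := 1) (m := 0) hx (by rw [pow_zero, one_mul]) (by simp)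
  rw [h]
  simp

theorem ld_pow {x : F} (hx : x ≠ 0) {A : F[X]} (hA : A ≠ 0) (n : ℕ) :
    ld x (A ^ n) = ld x A ^ n := by
  induction n with
  | zero => rw [pow_zero, pow_zero, ld_one hx]
  | succ n ih => rw [pow_succ, ld_mul hx (pow_ne_zero n hA) hA, ih, pow_succ]

theorem ld_prod {x : F} (hx : x ≠ 0) {ι : Type*} (s : Finset ι) {A : ι → F[X]}
    (hA : ∀ i ∈ s, A i ≠ 0) : ld x (∏ i ∈ s, A i) = ∏ i ∈ s, ld x (A i) := by
  classical
  induction s using Finset.induction_on with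
  | empty => rw [Finset.prod_empty, Finset.prod_empty, ld_one hx]
  | insert i s hi ih =>
    rw [Finset.prod_insert hi, Finset.prod_insert hi,
      ld_mul hx (hA i (Finset.mem_insert_self i s))
        (Finset.prod_ne_zero_iff.2 fun j hj => hA j (Finset.mem_insert_of_mem hj)),
      ih fun j hj => hA j (Finset.mem_insert_of_mem hj)]

/-- if `A` does not vanish at `x`, the leading coefficient is the value -/
theorem ld_of_eval {x : F} (hx : x ≠ 0) {A : F[X]} (h : A.eval x ≠ 0) : ld x A = A.eval x :=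
  ld_of_eq (m := 0) hx (by rw [pow_zero, one_mul]) h

end lead

section modl

variable {l : ℕ} [hl : Fact l.Prime]

theorem ld_pow_l {x : ZMod l} (hx : x ≠ 0) {A : (ZMod l)[X]} (hA : A ≠ 0) (j : ℕ) :
    ld x (A ^ l ^ j) = ld x A := by
  rw [ld_pow hx hA, ZMod.pow_card_pow]

theorem ld_expand {x : ZMod l} (hx : x ≠ 0) {A : (ZMod l)[X]} (hA : A ≠ 0) (i : ℕ) :
    ld x (expand (ZMod l) (l ^ i) A) = ld x A := by
  obtain ⟨G, g1, g2, g3⟩ := exists_ld hx hA
  have hex : ExpChar (ZMod l) l := inferInstance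
  have h1 : expand (ZMod l) (l ^ i) A =
      (1 - C x⁻¹ * X) ^ (l ^ i * A.rootMultiplicity x) * expand (ZMod l) (l ^ i) G := by
    conv_lhs => rw [g1]
    rw [map_mul, map_pow, map_sub, map_one, map_mul, expand_C, expand_X, pow_mul,
      sub_pow_expChar_pow, one_pow, mul_pow, ← C_pow, ZMod.pow_card_pow]
  have h2 : (expand (ZMod l) (l ^ i) G).eval x = G.eval x := by
    rw [expand_eval, ZMod.pow_card_pow]
  rw [ld_of_eq hx h1 (by rw [h2, g2]; exact g3), h2, g2]

end modl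

section ext

variable {k K L : Type} [Field k] [Finite k] [Field K] [Algebra k K] [FF.IsFF k K] [Field L]
  [Algebra k L] [Algebra K L] [IsScalarTower k K L] [FF.IsFF k L] [FiniteDimensional K L]
  [IsGalois K L]

/-- the comparison of the Euler products as an identity of polynomials modulo `l` -/
theorem kida_poly {l s : ℕ} [Fact l.Prime] (hn : finrank K L = l ^ s)
    {S : Place k K → Finset (Place k L)} {e f : Place k K → ℕ}
    (D : ∀ v, GaloisFiber v (S v) (e v) (f v)) (B : Finset (Place k K))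
    (hB : ∀ v, v ∉ B → e v = 1) {g : Place k K → PowerSeries (ZMod l)}
    {g' : Place k L → PowerSeries (ZMod l)}
    (hg : ∀ v, (PowerSeries.X : PowerSeries (ZMod l)) ^ v.deg ∣ g v - 1)
    (hg' : ∀ w, (PowerSeries.X : PowerSeries (ZMod l)) ^ w.deg ∣ g' w - 1)
    (hgg : ∀ v, ∀ w ∈ S v, g' w = g v ^ f v) {p p' : PowerSeries (ZMod l)}
    (hK : p * eulerProd (fun v : FF.Place k K => v.deg) g = 1)
    (hL : p' * eulerProd (fun v : FF.Place k L => v.deg) g' = 1)
    {U V Q W' : Polynomial (ZMod l)} (hU : p * (V : PowerSeries (ZMod l)) = U)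
    (hQ : p' * (W' : PowerSeries (ZMod l)) = (Q : PowerSeries (ZMod l)))
    {a : Place k K → Polynomial (ZMod l)}
    (hab : ∀ v ∈ B, g v = a v) :
    W' * U ^ l ^ s * (∏ v ∈ B, a v ^ l ^ s) = Q * V ^ l ^ s * ∏ v ∈ B, a v ^ (l ^ s / e v) := by
  classical
  have hid := Pool.Agent.Y701.PE.kida_series hn D B hB hg hg' hgg hK hL
  have hpa : (∏ v ∈ B, g v ^ l ^ s) = ∏ v ∈ B, (a v : PowerSeries (ZMod l)) ^ l ^ s :=
    Finset.prod_congr rfl fun v hv => by rw [hab v hv]
  have hpe : (∏ v ∈ B, g v ^ (l ^ s / e v)) =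
      ∏ v ∈ B, (a v : PowerSeries (ZMod l)) ^ (l ^ s / e v) :=
    Finset.prod_congr rfl fun v hv => by rw [hab v hv]
  have hpow : p ^ l ^ s * (V : PowerSeries (ZMod l)) ^ l ^ s =
      (U : PowerSeries (ZMod l)) ^ l ^ s := by rw [← mul_pow, hU]
  apply Polynomial.coe_injective
  simp only [Polynomial.coe_mul, Polynomial.coe_pow, coe_prod']
  rw [← hpa, ← hpe, ← hpow, ← hQ]
  linear_combination (W' : PowerSeries (ZMod l)) * (V : PowerSeries (ZMod l)) ^ l ^ s * hid

end ext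

end Pool.Agent.V1194.LT
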