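import Pool.Agent.V1194.LT.Lead

/-!
The leading coefficients modulo `l` of Euler products over function fields, in Galois extensions of degree
a power of `l`.
-/

set_option autoImplicit false
set_option linter.all false
set_option maxHeartbeats 4000000

open FF Module

namespace Pool.Agent.V1194.LT

open Pool.Agent.W343.BSD Pool.Agent.Y701.QF
open Pool.Agent.Y701.PE (IsExp sub toC cc_toC pw_of)
open Pool.Agent.H123R3.ZT
open Pool.Agent.V1173.KA
open Polynomial

section kida

variable {k K k' L : Type} [Field k] [Finite k] [Field K] [Algebra k K] [FF.IsFF k K]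
  [Field k'] [Finite k'] [Field L] [Algebra k' L] [Algebra k k'] [Algebra k L] [Algebra K L]
  [IsScalarTower k K L] [IsScalarTower k k' L] [FF.IsFF k L] [FF.IsFF k' L]
  [FiniteDimensional K L] [IsGalois K L]

/-- reduction of integral polynomials -/
noncomputable def rd (l : ℕ) (A : ℤ[X]) : (ZMod l)[X] := A.map (Int.castRingHom (ZMod l))

theorem all_poly {l s : ℕ} [hl : Fact l.Prime] (hn : finrank K L = l ^ s)
    {S : Place k K → Finset (Place k L)} {e f : Place k K → ℕ}
    (D : ∀ v, GaloisFiber v (S v) (e v) (f v))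
    (B : Finset (Place k K)) (hB : ∀ v, v ∉ B → e v = 1)
    {P : Place k K → ℤ[X]} {P' : Place k' L → ℤ[X]}
    {a : Place k K → ℕ → ℤ} {a' : Place k' L → ℕ → ℤ}
    (hP : ∀ v, IsExp (a v) (P v : PowerSeries ℤ))
    (hP' : ∀ w, IsExp (a' w) (P' w : PowerSeries ℤ))
    (haa : ∀ (v : Place k K) (w : Place k L) (n f : ℕ), Over w v n → w.deg = v.deg * f →
      ∀ m, m ≠ 0 → a' (upPlace w) m = a v (f * m))
    {Λ Λ' : PowerSeries ℤ}
    (hK : Λ * eulerProd (fun v : Place k K => v.deg)
      (fun v => sub v.deg (P v : PowerSeries ℤ)) = 1)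
    (hL : Λ' * eulerProd (fun w : Place k' L => w.deg)
      (fun w => sub w.deg (P' w : PowerSeries ℤ)) = 1)
    {U V R W : ℤ[X]}
    (hU : Λ * (V : PowerSeries ℤ) = (U : PowerSeries ℤ))
    (hR : Λ' * (W : PowerSeries ℤ) = (R : PowerSeries ℤ)) :
    expand (ZMod l) (finrank k k') (rd l W) * rd l U ^ l ^ s *
        (∏ v ∈ B, rd l (expand ℤ v.deg (P v)) ^ l ^ s) =
      expand (ZMod l) (finrank k k') (rd l R) * rd l V ^ l ^ s *
        ∏ v ∈ B, rd l (expand ℤ v.deg (P v)) ^ (l ^ s / e v) := by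
  classical
  have : FiniteDimensional k k' := Module.Finite.of_finite
  have hr : finrank k k' ≠ 0 := finrank_pos.ne'
  have hdK : ∀ v : Place k K, v.deg ≠ 0 := fun w => (Pool.Agent.H525R3.FFp.deg_pos w).ne'
  have hdL : ∀ v : Place k L, v.deg ≠ 0 := fun w => (Pool.Agent.H525R3.FFp.deg_pos w).ne'
  -- the Euler products modulo `l`
  set g : Place k K → PowerSeries (ZMod l) :=
    fun v => redL l (sub v.deg (P v : PowerSeries ℤ)) with hg
  set g' : Place k L → PowerSeries (ZMod l) :=
    fun w => redL l (sub w.deg (P' (upPlace w) : PowerSeries ℤ)) with hg'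
  have hg1 : ∀ v, (PowerSeries.X : PowerSeries (ZMod l)) ^ v.deg ∣ g v - 1 := by
    intro v
    have h := map_dvd (redL l) (Pool.Agent.Y701.PE.sub_mod (hdK v) (hP v).1)
    rwa [map_sub, map_one, map_pow, PowerSeries.map_X] at h
  have hg1' : ∀ w, (PowerSeries.X : PowerSeries (ZMod l)) ^ w.deg ∣ g' w - 1 := by
    intro w
    have h := map_dvd (redL l) (Pool.Agent.Y701.PE.sub_mod (hdL w) (hP' (upPlace w)).1)
    rwa [map_sub, map_one, map_pow, PowerSeries.map_X] at h
  have hgg : ∀ v, ∀ w ∈ S v, g' w = g v ^ f v := by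
    intro v w hw
    obtain ⟨j, hj⟩ := fiber_pow (D v) hn
    have h1 := Pool.Agent.Y701.PE.dwork (l := l) (i := j) (hP v) (hP' (upPlace w)) (by
      intro n hn0
      rw [← hj]
      exact haa v w _ (f v) ((D v).isOver w hw) ((D v).deg w hw) n hn0)
    rw [← hj] at h1
    have hf0 : f v ≠ 0 := by
      rw [hj]
      exact pow_ne_zero _ hl.out.ne_zero
    show redL l (sub w.deg (P' (upPlace w) : PowerSeries ℤ)) =
      redL l (sub v.deg (P v : PowerSeries ℤ)) ^ f v
    rw [(D v).deg w hw, ← Pool.Agent.Y701.PE.sub_sub _ _ (hdK v) hf0,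
      Pool.Agent.Y701.PE.map_sub', h1, Pool.Agent.Y701.PE.sub_pow' (hdK v),
      Pool.Agent.Y701.PE.map_sub']
  have hK1 : redL l Λ * eulerProd (fun v : FF.Place k K => v.deg) g = 1 := by
    have h := congrArg (redL l) hK
    rwa [map_mul, map_one, map_eulerProd (fun n => places_fin n)] at h
  have hLk : PowerSeries.expand (finrank k k') hr Λ' *
      eulerProd (fun w : Place k L => w.deg)
        (fun w => sub w.deg (P' (upPlace w) : PowerSeries ℤ)) = 1 := by
    rw [Pool.Agent.Y701.PE.euler_down (P' := fun w => (P' w : PowerSeries ℤ)) hr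
      fun w => (hP' w).1, ← map_mul, hL, map_one]
  have hL1 : redL l (PowerSeries.expand (finrank k k') hr Λ') *
      eulerProd (fun v : FF.Place k L => v.deg) g' = 1 := by
    have h := congrArg (redL l) hLk
    rwa [map_mul, map_one, map_eulerProd (fun n => places_fin n)] at h
  have hex : ∀ A : ℤ[X], expand (ZMod l) (finrank k k') (rd l A) =
      (expand ℤ (finrank k k') A).map (Int.castRingHom (ZMod l)) := by
    intro A
    unfold rd
    rw [Polynomial.map_expand]
  have hQ : redL l (PowerSeries.expand (finrank k k') hr Λ') *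
      ((expand (ZMod l) (finrank k k') (rd l W) : (ZMod l)[X]) : PowerSeries (ZMod l)) =
      ((expand (ZMod l) (finrank k k') (rd l R) : (ZMod l)[X]) : PowerSeries (ZMod l)) := by
    rw [hex, hex, ← redL_poly, ← redL_poly, ← map_mul, Pool.Agent.W343.BSD.coe_expand _ hr,
      Pool.Agent.W343.BSD.coe_expand _ hr, ← map_mul, hR]
  exact kida_poly (U := rd l U) (V := rd l V)
    (a := fun v => rd l (expand ℤ v.deg (P v)))
    hn D B hB hg1 hg1' hgg hK1 hL1 (by
      have h := congrArg (redL l) hU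
      rwa [map_mul, redL_poly, redL_poly] at h) hQ
    (fun v hv => by
      show g v = ((rd l (expand ℤ v.deg (P v)) : (ZMod l)[X]) : PowerSeries (ZMod l))
      unfold rd
      rw [← redL_poly, ← Pool.Agent.Y701.PE.sub_poly (hdK v), hg])

open Classical in
theorem T_poly {l s : ℕ} [hl : Fact l.Prime] (hn : finrank K L = l ^ s)
    {St : Place k K → Finset (Place k L)} {e f : Place k K → ℕ}
    (D : ∀ v, GaloisFiber v (St v) (e v) (f v))
    (B : Finset (Place k K)) (hB : ∀ v, v ∉ B → e v = 1)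
    {P : Place k K → ℤ[X]} {P' : Place k' L → ℤ[X]} (hP : ∀ v, (P v).coeff 0 = 1)
    (hP' : ∀ w, (P' w).coeff 0 = 1) (T : Finset (Place k K))
    (hext : ∀ (v : Place k K) (w : Place k' L) (e f : ℕ), v ∉ T →
      V1173.KA.LiesOver w v e → Nat.card (S.Res w) = Nat.card (S.Res v) ^ f →
      V1173.KA.IsPower f (P v) (P' w))
    (TL : Finset (Place k' L))
    (hTL : ∀ w, w ∈ TL ↔ ∃ v ∈ T, ∃ e : ℕ, V1173.KA.LiesOver w v e)
    {Λ Λ' : PowerSeries ℤ}
    (hK : Λ * eulerProd (fun v : Place k K => v.deg)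
      (fun v => sub v.deg (P v : PowerSeries ℤ)) = 1)
    (hL : Λ' * eulerProd (fun w : Place k' L => w.deg)
      (fun w => sub w.deg (P' w : PowerSeries ℤ)) = 1)
    {U V R W : ℤ[X]}
    (hU : Λ * (V : PowerSeries ℤ) = (U : PowerSeries ℤ))
    (hR : Λ' * (W : PowerSeries ℤ) = (R : PowerSeries ℤ)) :
    expand (ZMod l) (finrank k k') (rd l W) *
        rd l (U * ∏ v ∈ T, expand ℤ v.deg (P v)) ^ l ^ s *
        (∏ v ∈ B, rd l (expand ℤ v.deg (if v ∈ T then 1 else P v)) ^ l ^ s) =
      expand (ZMod l) (finrank k k') (rd l (R * ∏ w ∈ TL, expand ℤ w.deg (P' w))) *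
        rd l V ^ l ^ s *
        ∏ v ∈ B, rd l (expand ℤ v.deg (if v ∈ T then 1 else P v)) ^ (l ^ s / e v) := by
  classical
  have hdK : ∀ v : Place k K, 0 < v.deg := fun w => Pool.Agent.H525R3.FFp.deg_pos w
  have hdL : ∀ v : Place k' L, 0 < v.deg := fun w => Pool.Agent.H525R3.FFp.deg_pos w
  have hfin : Module.Finite k k' := Module.Finite.of_finite
  have huniq : ∀ (v v1 : Place k K) (w : Place k' L) (e e1 : ℕ),
      V1173.KA.LiesOver w v e → V1173.KA.LiesOver w v1 e1 → v = v1 := fun v v1 w e e1 h1 h2 =>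
    over_unique_base (over_down h1) (over_down h2)
  set E : ℤ[X] := ∏ v ∈ T, expand ℤ v.deg (P v) with hE
  set E' : ℤ[X] := ∏ w ∈ TL, expand ℤ w.deg (P' w) with hE'
  have s1 := euler_split hP (fun v => v ∈ T) T fun v => Iff.rfl
  have s2 := euler_split hP' (fun w => w ∈ TL) TL fun w => Iff.rfl
  rw [← hE] at s1
  rw [← hE'] at s2
  have cc1 : ∀ v : Place k K, PowerSeries.constantCoeff
      ((if v ∈ T then 1 else P v : ℤ[X]) : PowerSeries ℤ) = 1 := by
    intro v
    split_ifs
    · rw [Polynomial.coe_one, map_one]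
    · exact cc_coe (hP v)
  have cc2 : ∀ w : Place k' L, PowerSeries.constantCoeff
      ((if w ∈ TL then 1 else P' w : ℤ[X]) : PowerSeries ℤ) = 1 := by
    intro v
    split_ifs
    · rw [Polynomial.coe_one, map_one]
    · exact cc_coe (hP' v)
  choose a ha using fun v => exists_exp (cc1 v)
  choose a' ha' using fun w => exists_exp (cc2 w)
  have hKt : Λ * (E : PowerSeries ℤ) * eulerProd (fun v : Place k K => v.deg)
      (fun v => sub v.deg ((if v ∈ T then 1 else P v : ℤ[X]) : PowerSeries ℤ)) = 1 := by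
    rw [mul_assoc, mul_comm (E : PowerSeries ℤ), ← s1, hK]
  have hLt : Λ' * (E' : PowerSeries ℤ) * eulerProd (fun w : Place k' L => w.deg)
      (fun w => sub w.deg ((if w ∈ TL then 1 else P' w : ℤ[X]) : PowerSeries ℤ)) = 1 := by
    rw [mul_assoc, mul_comm (E' : PowerSeries ℤ), ← s2, hL]
  have hUt : Λ * (E : PowerSeries ℤ) * (V : PowerSeries ℤ) = ((U * E : ℤ[X]) : PowerSeries ℤ) := by
    rw [Polynomial.coe_mul, ← hU]
    ring
  have hRt : Λ' * (E' : PowerSeries ℤ) * (W : PowerSeries ℤ) =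
      ((R * E' : ℤ[X]) : PowerSeries ℤ) := by
    rw [Polynomial.coe_mul, ← hR]
    ring
  have haa : ∀ (v : Place k K) (w : Place k L) (n f : ℕ), Over w v n → w.deg = v.deg * f →
      ∀ m, m ≠ 0 → a' (upPlace w) m = a v (f * m) := by
    intro v w n f h1 hd m hm
    have hdw : 0 < w.deg := Pool.Agent.H525R3.FFp.deg_pos w
    have hf0 : f ≠ 0 := by
      rintro rfl
      rw [mul_zero] at hd
      omega
    have h2 : V1173.KA.LiesOver (upPlace (k' := k') w) v n := lies_up h1
    by_cases hv : v ∈ T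
    · have hw : upPlace (k' := k') w ∈ TL := (hTL _).2 ⟨v, hv, n, h2⟩
      have g1 := ha v
      have g2 := ha' (upPlace (k' := k') w)
      rw [if_pos hv, Polynomial.coe_one] at g1
      rw [if_pos hw, Polynomial.coe_one] at g2
      rw [exp_unique g2 exp_zero hm, exp_unique g1 exp_zero (Nat.mul_ne_zero hf0 hm)]
    · have hw : upPlace (k' := k') w ∉ TL := by
        intro h
        obtain ⟨v1, hv1, e1, h3⟩ := (hTL _).1 h
        exact hv (huniq v v1 _ _ _ h2 h3 ▸ hv1)
      have g1 := ha v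
      have g2 := ha' (upPlace (k' := k') w)
      rw [if_neg hv] at g1
      rw [if_neg hw] at g2
      refine exp_unique g2 (exp_of_power hf0 (hext v _ n f hv h2 ?_) g1) hm
      rw [card_res, card_res]
      have h4 : w.deg = finrank k k' * (upPlace (k' := k') w).deg :=
        deg_down (k := k) (upPlace (k' := k') w)
      rw [Module.natCard_eq_pow_finrank (K := k) (V := k'), ← pow_mul, ← h4, hd, pow_mul]
  exact all_poly (k' := k') hn D B hB
    (P := fun v => if v ∈ T then 1 else P v) (P' := fun w => if w ∈ TL then 1 else P' w)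
    ha ha' haa hKt hLt hUt hRt

end kida

section cc

variable {k K : Type} [Field k] [Finite k] [Field K] [Algebra k K] [FF.IsFF k K]

theorem cc_euler {P : Place k K → ℤ[X]} (hP : ∀ v, (P v).coeff 0 = 1) {Λ : PowerSeries ℤ}
    (h : Λ * eulerProd (fun v : Place k K => v.deg)
      (fun v => Pool.Agent.Y701.PE.sub v.deg (P v : PowerSeries ℤ)) = 1) :
    PowerSeries.constantCoeff Λ = 1 := by
  have h1 : PowerSeries.constantCoeff (eulerProd (fun v : Place k K => v.deg)
      (fun v => Pool.Agent.Y701.PE.sub v.deg (P v : PowerSeries ℤ))) = 1 := by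
    rw [← PowerSeries.coeff_zero_eq_constantCoeff_apply,
      coeff_eulerProd (fun n => places_fin n), PowerSeries.coeff_zero_eq_constantCoeff_apply,
      map_prod]
    refine Finset.prod_eq_one fun v _ => ?_
    rw [Pool.Agent.Y701.PE.cc_sub, Pool.Agent.V1173.KA.cc_coe (hP v)]
  have h2 := congrArg PowerSeries.constantCoeff h
  rwa [map_mul, h1, mul_one, map_one] at h2

theorem coeff_of {P : Place k K → ℤ[X]} (hP : ∀ v, (P v).coeff 0 = 1) {Λ : PowerSeries ℤ}
    (h : Λ * eulerProd (fun v : Place k K => v.deg)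
      (fun v => Pool.Agent.Y701.PE.sub v.deg (P v : PowerSeries ℤ)) = 1) {V U : ℤ[X]}
    (hV : V.coeff 0 = 1) (hU : Λ * (V : PowerSeries ℤ) = (U : PowerSeries ℤ)) :
    U.coeff 0 = 1 := by
  have h1 := congrArg PowerSeries.constantCoeff hU
  rw [map_mul, cc_euler hP h, one_mul, Pool.Agent.V1173.KA.cc_coe hV,
    ← PowerSeries.coeff_zero_eq_constantCoeff_apply, Polynomial.coeff_coe] at h1
  exact h1.symm

end cc

end Pool.Agent.V1194.LT
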