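import Pool.Agent.V1194.LT.Poly

/-!
Reduction of rational numbers modulo a prime, leading coefficients over the rational numbers and modulo
the prime, and limits.
-/

set_option autoImplicit false
set_option linter.all false
set_option maxHeartbeats 4000000

open FF Module

namespace Pool.Agent.V1194.LT

open Pool.Agent.W343.BSD
open Polynomial

/-- The rational number `x` is integral at `ℓ` and `y` is its residue class modulo `ℓ`. -/
def ReducesTo (ℓ : ℕ) [Fact ℓ.Prime] (x : ℚ) (y : ZMod ℓ) : Prop :=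
  ∃ a d : ℤ, ¬ (ℓ : ℤ) ∣ d ∧ x = (a : ℚ) / d ∧ y = (a : ZMod ℓ) / d

section red

variable {l : ℕ} [hl : Fact l.Prime]

theorem den_ne {d : ℤ} (hd : ¬ (l : ℤ) ∣ d) : ((d : ℤ) : ZMod l) ≠ 0 := by
  rwa [Ne, ZMod.intCast_zmod_eq_zero_iff_dvd]

theorem den_neQ {d : ℤ} (hd : ¬ (l : ℤ) ∣ d) : ((d : ℤ) : ℚ) ≠ 0 := by
  intro h
  have h1 : d = 0 := by exact_mod_cast h
  exact hd (h1 ▸ dvd_zero _)

theorem not_dvd_mul {d e : ℤ} (hd : ¬ (l : ℤ) ∣ d) (he : ¬ (l : ℤ) ∣ e) : ¬ (l : ℤ) ∣ d * e := by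
  intro h
  rcases (Nat.prime_iff_prime_int.1 hl.out).dvd_or_dvd h with h | h
  · exact hd h
  · exact he h

theorem red_add {x x' : ℚ} {y y' : ZMod l} (h : ReducesTo l x y) (h' : ReducesTo l x' y') :
    ReducesTo l (x + x') (y + y') := by
  obtain ⟨a, d, hd, rfl, rfl⟩ := h
  obtain ⟨a', d', hd', rfl, rfl⟩ := h'
  refine ⟨a * d' + d * a', d * d', not_dvd_mul hd hd', ?_, ?_⟩
  · rw [div_add_div _ _ (den_neQ hd) (den_neQ hd')]
    push_cast
    rfl
  · rw [div_add_div _ _ (den_ne hd) (den_ne hd')]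
    push_cast
    rfl

theorem red_mul {x x' : ℚ} {y y' : ZMod l} (h : ReducesTo l x y) (h' : ReducesTo l x' y') :
    ReducesTo l (x * x') (y * y') := by
  obtain ⟨a, d, hd, rfl, rfl⟩ := h
  obtain ⟨a', d', hd', rfl, rfl⟩ := h'
  refine ⟨a * a', d * d', not_dvd_mul hd hd', ?_, ?_⟩
  · rw [div_mul_div_comm]
    push_cast
    rfl
  · rw [div_mul_div_comm]
    push_cast
    rfl

theorem red_int (a : ℤ) : ReducesTo l (a : ℚ) (a : ZMod l) := by
  refine ⟨a, 1, ?_, by simp, by simp⟩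
  intro h
  have h1 : l ∣ 1 := by exact_mod_cast h
  exact hl.out.one_lt.ne' (Nat.dvd_one.1 h1)

theorem red_inv {q b : ℕ} (hq : ((q : ℕ) : ZMod l) ≠ 0) :
    ReducesTo l ((q : ℚ) ^ b)⁻¹ (((q : ℕ) : ZMod l) ^ b)⁻¹ := by
  refine ⟨1, (q : ℤ) ^ b, ?_, ?_, ?_⟩
  · intro h
    have h1 := (ZMod.intCast_zmod_eq_zero_iff_dvd ((q : ℤ) ^ b) l).2 h
    push_cast at h1
    exact pow_ne_zero b hq h1
  · push_cast
    rw [one_div]
  · push_cast
    rw [one_div]

theorem red_eval (H : ℤ[X]) {x : ℚ} {y : ZMod l} (h : ReducesTo l x y) :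
    ReducesTo l ((H.map (Int.castRingHom ℚ)).eval x)
      ((H.map (Int.castRingHom (ZMod l))).eval y) := by
  induction H using Polynomial.induction_on' with
  | add p q hp hq =>
    rw [Polynomial.map_add, Polynomial.map_add, eval_add, eval_add]
    exact red_add hp hq
  | monomial n a =>
    rw [Polynomial.map_monomial, Polynomial.map_monomial, eval_monomial, eval_monomial]
    have hp : ∀ m : ℕ, ReducesTo l (x ^ m) (y ^ m) := by
      intro m
      induction m with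
      | zero =>
        rw [pow_zero, pow_zero]
        have h1 := red_int (l := l) 1
        simpa using h1
      | succ m ih =>
        rw [pow_succ, pow_succ]
        exact red_mul ih h
    exact red_mul (red_int a) (hp n)

end red

section main

variable {l : ℕ} [hl : Fact l.Prime]

/-- the leading coefficients of an integral polynomial over the rational numbers and modulo `l` -/
theorem lead_facts {q b : ℕ} (hq : ((q : ℕ) : ZMod l) ≠ 0) {A : ℤ[X]} (hA : A.coeff 0 = 1) :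
    ∃ H : ℤ[X], A = (1 - C ((q : ℤ) ^ b) * X) ^
        (A.map (Int.castRingHom ℚ)).rootMultiplicity ((q : ℚ) ^ b)⁻¹ * H ∧
      (H.map (Int.castRingHom ℚ)).eval ((q : ℚ) ^ b)⁻¹ =
        ld ((q : ℚ) ^ b)⁻¹ (A.map (Int.castRingHom ℚ)) ∧
      ld ((q : ℚ) ^ b)⁻¹ (A.map (Int.castRingHom ℚ)) ≠ 0 ∧
      ∃ y : ZMod l, ReducesTo l (ld ((q : ℚ) ^ b)⁻¹ (A.map (Int.castRingHom ℚ))) y ∧
        (y ≠ 0 ↔ (A.map (Int.castRingHom ℚ)).rootMultiplicity ((q : ℚ) ^ b)⁻¹ =
          (A.map (Int.castRingHom (ZMod l))).rootMultiplicity (((q : ℕ) : ZMod l) ^ b)⁻¹) ∧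
        (y ≠ 0 → y = ld (((q : ℕ) : ZMod l) ^ b)⁻¹ (A.map (Int.castRingHom (ZMod l)))) := by
  have hq0 : q ≠ 0 := by
    rintro rfl
    exact hq Nat.cast_zero
  have hqQ : (q : ℚ) ≠ 0 := by exact_mod_cast hq0
  have hx : ((q : ℚ) ^ b)⁻¹ ≠ 0 := inv_ne_zero (pow_ne_zero _ hqQ)
  have hy : (((q : ℕ) : ZMod l) ^ b)⁻¹ ≠ 0 := inv_ne_zero (pow_ne_zero _ hq)
  have hAQ : A.map (Int.castRingHom ℚ) ≠ 0 := by
    intro h
    have h1 := congrArg (fun p => Polynomial.coeff p 0) h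
    simp only [Polynomial.coeff_map, hA, Polynomial.coeff_zero, map_one] at h1
    exact one_ne_zero h1
  have hAl : A.map (Int.castRingHom (ZMod l)) ≠ 0 := Pool.Agent.Y701.PE.map_ne_of_coeff hA
  set r := (A.map (Int.castRingHom ℚ)).rootMultiplicity ((q : ℚ) ^ b)⁻¹ with hr
  obtain ⟨H, hH⟩ := Pool.Agent.TH943.KD.dvd_of_mult (q := q ^ b) (pow_ne_zero _ hq0)
    (G := A) (r := r) (by
      rw [hr]
      push_cast
      rfl)
  have hH' : A = (1 - C ((q : ℤ) ^ b) * X) ^ r * H := by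
    rw [hH]
    push_cast
    rfl
  obtain ⟨G, g1, g2, g3⟩ := exists_ld hx hAQ
  rw [← hr, inv_inv] at g1
  have e1 : A.map (Int.castRingHom ℚ) = (1 - C ((q : ℚ) ^ b) * X) ^ r *
      H.map (Int.castRingHom ℚ) := by
    conv_lhs => rw [hH']
    rw [Polynomial.map_mul, Polynomial.map_pow, Polynomial.map_sub, Polynomial.map_one,
      Polynomial.map_mul, Polynomial.map_C, Polynomial.map_X]
    congr 5
    simp
  have e2 : A.map (Int.castRingHom (ZMod l)) = (1 - C (((q : ℕ) : ZMod l) ^ b) * X) ^ r *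
      H.map (Int.castRingHom (ZMod l)) := by
    conv_lhs => rw [hH']
    rw [Polynomial.map_mul, Polynomial.map_pow, Polynomial.map_sub, Polynomial.map_one,
      Polynomial.map_mul, Polynomial.map_C, Polynomial.map_X]
    congr 5
    simp
  have hlin : (1 - C ((q : ℚ) ^ b) * X : ℚ[X]) ≠ 0 := by
    have h := lin_ne (x := ((q : ℚ) ^ b)⁻¹)
    rwa [inv_inv] at h
  have hGH : G = H.map (Int.castRingHom ℚ) := mul_left_cancel₀ (pow_ne_zero r hlin) (by
    rw [← g1, ← e1])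
  refine ⟨H, hH', by rw [← hGH, g2], g3, (H.map (Int.castRingHom (ZMod l))).eval
    (((q : ℕ) : ZMod l) ^ b)⁻¹, ?_, ?_, ?_⟩
  · rw [← g2, hGH]
    exact red_eval H (red_inv hq)
  · constructor
    · intro h
      exact (rm_of_eq hy (by rw [inv_inv]; exact e2) h).symm
    · intro h
      obtain ⟨G', g1', g2', g3'⟩ := exists_ld hy hAl
      rw [← h, inv_inv] at g1'
      have hlin' : (1 - C (((q : ℕ) : ZMod l) ^ b) * X : (ZMod l)[X]) ≠ 0 := by
        have h := lin_ne (x := (((q : ℕ) : ZMod l) ^ b)⁻¹)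
        rwa [inv_inv] at h
      have hGH' : G' = H.map (Int.castRingHom (ZMod l)) :=
        mul_left_cancel₀ (pow_ne_zero r hlin') (by rw [← g1', ← e2])
      rw [← hGH', g2']
      exact g3'
  · intro h
    exact (ld_of_eq hy (by rw [inv_inv]; exact e2) h).symm

end main

section limit

open Filter Topology

/-- the leading coefficient of the function `A (q ^ (-s))` at `s = b` -/
theorem lead_limit {q b : ℕ} (hq : 1 < q) {A : ℤ[X]} {r : ℕ} {H : ℤ[X]}
    (hA : A = (1 - C ((q : ℤ) ^ b) * X) ^ r * H) :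
    Tendsto (fun s : ℂ => (A.map (Int.castRingHom ℂ)).eval ((q : ℂ) ^ (-s)) / (s - b) ^ r)
      (𝓝[≠] (b : ℂ)) (𝓝 ((Real.log q : ℂ) ^ r *
        ((H.map (Int.castRingHom ℚ)).eval ((q : ℚ) ^ b)⁻¹ : ℚ))) := by
  have hq0 : (q : ℂ) ≠ 0 := by
    have : q ≠ 0 := by omega
    exact_mod_cast this
  have hfun : ∀ s : ℂ, (q : ℂ) ^ (-s) = Complex.exp (-(s * Complex.log q)) := by
    intro s
    rw [Complex.cpow_def_of_ne_zero hq0]
    congr 1
    ring
  have hlog : Complex.log q = (Real.log q : ℂ) := by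
    rw [← Complex.natCast_log]
  have hval : (q : ℂ) ^ (-(b : ℂ)) = ((q : ℂ) ^ b)⁻¹ := by
    rw [Complex.cpow_neg, Complex.cpow_natCast]
  have hd : HasDerivAt (fun s : ℂ => (1 : ℂ) - (q : ℂ) ^ b * (q : ℂ) ^ (-s)) (Real.log q : ℂ)
      (b : ℂ) := by
    have h1 : HasDerivAt (fun s : ℂ => (1 : ℂ) - (q : ℂ) ^ b * Complex.exp (-(s * Complex.log q)))
        (-((q : ℂ) ^ b * (Complex.exp (-((b : ℂ) * Complex.log q)) * -(1 * Complex.log q))))
        (b : ℂ) :=
      (((((hasDerivAt_id (b : ℂ)).mul_const (Complex.log q)).neg).cexp).const_mul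
        ((q : ℂ) ^ b)).const_sub 1
    have h2 : -((q : ℂ) ^ b * (Complex.exp (-((b : ℂ) * Complex.log q)) *
        -(1 * Complex.log q))) = (Real.log q : ℂ) := by
      rw [← hfun, hval, one_mul, hlog]
      field_simp
    rw [h2] at h1
    have h3 : (fun s : ℂ => (1 : ℂ) - (q : ℂ) ^ b * (q : ℂ) ^ (-s)) =
        fun s : ℂ => (1 : ℂ) - (q : ℂ) ^ b * Complex.exp (-(s * Complex.log q)) := by
      funext s
      rw [hfun]
    rw [h3]
    exact h1
  have hz : (1 : ℂ) - (q : ℂ) ^ b * (q : ℂ) ^ (-(b : ℂ)) = 0 := by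
    rw [hval, mul_inv_cancel₀ (pow_ne_zero _ hq0), sub_self]
  have ht := hd.tendsto_slope
  have ht2 : Tendsto (fun s : ℂ => ((1 : ℂ) - (q : ℂ) ^ b * (q : ℂ) ^ (-s)) / (s - b))
      (𝓝[≠] (b : ℂ)) (𝓝 (Real.log q : ℂ)) := by
    refine ht.congr fun s => ?_
    rw [slope_def_field, hz, sub_zero]
  have hcont : ContinuousAt (fun s : ℂ => (H.map (Int.castRingHom ℂ)).eval ((q : ℂ) ^ (-s)))
      (b : ℂ) := by
    have h1 : ContinuousAt (fun s : ℂ => (q : ℂ) ^ (-s)) (b : ℂ) := by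
      have h3 : (fun s : ℂ => (q : ℂ) ^ (-s)) =
          fun s : ℂ => Complex.exp (-(s * Complex.log q)) := by
        funext s
        rw [hfun]
      rw [h3]
      fun_prop
    exact ((H.map (Int.castRingHom ℂ)).continuous.continuousAt).comp h1
  have hHt : Tendsto (fun s : ℂ => (H.map (Int.castRingHom ℂ)).eval ((q : ℂ) ^ (-s)))
      (𝓝[≠] (b : ℂ)) (𝓝 ((H.map (Int.castRingHom ℚ)).eval ((q : ℚ) ^ b)⁻¹ : ℚ)) := by
    have h1 := hcont.tendsto.mono_left (nhdsWithin_le_nhds (s := {(b : ℂ)}ᶜ))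
    have h2 : (H.map (Int.castRingHom ℂ)).eval ((q : ℂ) ^ (-(b : ℂ))) =
        (((H.map (Int.castRingHom ℚ)).eval ((q : ℚ) ^ b)⁻¹ : ℚ) : ℂ) := by
      rw [hval]
      have h3 : (((H.map (Int.castRingHom ℚ)).eval ((q : ℚ) ^ b)⁻¹ : ℚ) : ℂ) =
          (algebraMap ℚ ℂ) ((H.map (Int.castRingHom ℚ)).eval ((q : ℚ) ^ b)⁻¹) := rfl
      rw [h3, Polynomial.eval_map, Polynomial.eval_map, Polynomial.hom_eval₂]
      congr 1
      simp
    rw [h2] at h1
    exact h1
  have hfin := (ht2.pow r).mul hHt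
  refine hfin.congr fun s => ?_
  have e1 : (A.map (Int.castRingHom ℂ)).eval ((q : ℂ) ^ (-s)) =
      (1 - (q : ℂ) ^ b * (q : ℂ) ^ (-s)) ^ r * (H.map (Int.castRingHom ℂ)).eval ((q : ℂ) ^ (-s)) := by
    conv_lhs => rw [hA]
    rw [Polynomial.map_mul, Polynomial.map_pow, Polynomial.map_sub, Polynomial.map_one,
      Polynomial.map_mul, Polynomial.map_C, Polynomial.map_X, eval_mul, eval_pow, eval_sub, eval_one,
      eval_mul, eval_C, eval_X]
    simp
  rw [e1, div_pow]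
  ring

end limit

end Pool.Agent.V1194.LT
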